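import Pool.Agent.Helper81.Hodge.Main

/-!
# Hodge numbers of derived equivalent fivefolds

Mathematical content. Let `X`, `Y` be smooth projective varieties of dimension five whose
cohomology rings are related by an isomorphism of the kind a derived equivalence induces. Then all
their Hodge numbers agree if and only if `h^{1,0}`, the holomorphic Euler characteristic `χ(O)` and
the Chern number `c₁c₄` agree. Here `χ(O)` and `c₁c₄` are linear combinations of the Hodge numbers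
(the second one by the theorem of Libgober and Wood). Both numbers vanish if the canonical class is
numerically trivial: in odd dimension the Todd class of top degree is a multiple of `c₁`.
-/

set_option autoImplicit false

namespace Pool.Agent.Helper94.Hodge.FivefoldCriterion

open Pool.Agent.Hodge81 Module

variable {n : ℕ} {A : Type*} [Ring A] [Algebra ℂ A]

/-- the holomorphic Euler characteristic `χ(X, Ω^p)` -/
noncomputable def chi (X : HodgeRing n A) (p : ℕ) : ℤ :=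
  ∑ q ∈ Finset.range (n + 1), (-1) ^ q * (X.h p q : ℤ)

/-- twice the Chern number `∫ c₁ c_{n-1}`, by the theorem of Libgober and Wood
`12 ∑ (-1)^p χ(Ω^p) (p - n/2)² = n c_n + 2 c₁ c_{n-1}`, where `c_n = ∑ (-1)^p χ(Ω^p)` -/
noncomputable def twiceC1C (X : HodgeRing n A) : ℤ :=
  ∑ p ∈ Finset.range (n + 1), (-1) ^ p * (3 * (2 * (p : ℤ) - n) ^ 2 - n) * chi X p

/-- the Hodge numbers of a Hodge ring of dimension five: symmetries -/
theorem five_symm [FiniteDimensional ℂ A] (X : HodgeRing 5 A) :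
    (X.h 0 0 = 1 ∧ X.h 5 5 = 1) ∧
    (X.h 0 1 = X.h 1 0 ∧ X.h 5 4 = X.h 1 0 ∧ X.h 4 5 = X.h 1 0) ∧
    (X.h 0 2 = X.h 2 0 ∧ X.h 5 3 = X.h 2 0 ∧ X.h 3 5 = X.h 2 0) ∧
    (X.h 0 3 = X.h 3 0 ∧ X.h 5 2 = X.h 3 0 ∧ X.h 2 5 = X.h 3 0) ∧
    (X.h 0 4 = X.h 4 0 ∧ X.h 5 1 = X.h 4 0 ∧ X.h 1 5 = X.h 4 0) ∧
    X.h 0 5 = X.h 5 0 ∧
    X.h 4 4 = X.h 1 1 ∧
    (X.h 1 2 = X.h 2 1 ∧ X.h 4 3 = X.h 2 1 ∧ X.h 3 4 = X.h 2 1) ∧
    (X.h 1 3 = X.h 3 1 ∧ X.h 4 2 = X.h 3 1 ∧ X.h 2 4 = X.h 3 1) ∧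
    X.h 1 4 = X.h 4 1 ∧ X.h 3 3 = X.h 2 2 ∧ X.h 2 3 = X.h 3 2 := by
  have c := X.h_conj
  have s := fun p q (hp : p ≤ 5) (hq : q ≤ 5) => X.h_serre (p := p) (q := q) hp hq
  have h00 : X.h 0 0 = 1 := X.connected
  have s55 : X.h 0 0 = X.h 5 5 := s 5 5 (by norm_num) (by norm_num)
  have s54 : X.h 0 1 = X.h 5 4 := s 5 4 (by norm_num) (by norm_num)
  have s53 : X.h 0 2 = X.h 5 3 := s 5 3 (by norm_num) (by norm_num)
  have s52 : X.h 0 3 = X.h 5 2 := s 5 2 (by norm_num) (by norm_num)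
  have s51 : X.h 0 4 = X.h 5 1 := s 5 1 (by norm_num) (by norm_num)
  have s45 : X.h 1 0 = X.h 4 5 := s 4 5 (by norm_num) (by norm_num)
  have s35 : X.h 2 0 = X.h 3 5 := s 3 5 (by norm_num) (by norm_num)
  have s25 : X.h 3 0 = X.h 2 5 := s 2 5 (by norm_num) (by norm_num)
  have s15 : X.h 4 0 = X.h 1 5 := s 1 5 (by norm_num) (by norm_num)
  have s44 : X.h 1 1 = X.h 4 4 := s 4 4 (by norm_num) (by norm_num)
  have s43 : X.h 1 2 = X.h 4 3 := s 4 3 (by norm_num) (by norm_num)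
  have s34 : X.h 2 1 = X.h 3 4 := s 3 4 (by norm_num) (by norm_num)
  have s42 : X.h 1 3 = X.h 4 2 := s 4 2 (by norm_num) (by norm_num)
  have s24 : X.h 3 1 = X.h 2 4 := s 2 4 (by norm_num) (by norm_num)
  have s33 : X.h 2 2 = X.h 3 3 := s 3 3 (by norm_num) (by norm_num)
  have c01 := c 0 1
  have c02 := c 0 2
  have c03 := c 0 3
  have c04 := c 0 4
  have c05 := c 0 5
  have c12 := c 1 2
  have c13 := c 1 3
  have c14 := c 1 4
  have c23 := c 2 3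
  refine ⟨⟨h00, ?_⟩, ⟨c01, ?_, ?_⟩, ⟨c02, ?_, ?_⟩, ⟨c03, ?_, ?_⟩, ⟨c04, ?_, ?_⟩, c05, ?_,
    ⟨c12, ?_, ?_⟩, ⟨c13, ?_, ?_⟩, c14, ?_, c23⟩ <;> omega

theorem chi0 [FiniteDimensional ℂ A] (X : HodgeRing 5 A) :
    chi X 0 = 1 - X.h 1 0 + X.h 2 0 - X.h 3 0 + X.h 4 0 - X.h 5 0 := by
  obtain ⟨⟨e00, -⟩, ⟨e01, -, -⟩, ⟨e02, -, -⟩, ⟨e03, -, -⟩, ⟨e04, -, -⟩, e05, -⟩ := five_symm X
  unfold chi
  simp only [Finset.sum_range_succ, Finset.sum_range_zero, e00, e01, e02, e03, e04, e05]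
  push_cast
  ring

theorem twice_eq [FiniteDimensional ℂ A] (X : HodgeRing 5 A) :
    twiceC1C X = 140 * (1 - X.h 1 0 + X.h 2 0 - X.h 3 0 + X.h 4 0 - X.h 5 0)
      - 44 * (X.h 1 0 - X.h 1 1 + X.h 2 1 - X.h 3 1 + X.h 4 1 - X.h 4 0)
      - 4 * (X.h 2 0 - X.h 2 1 + X.h 2 2 - X.h 3 2 + X.h 3 1 - X.h 3 0) := by
  obtain ⟨⟨e00, e55⟩, ⟨e01, e54, e45⟩, ⟨e02, e53, e35⟩, ⟨e03, e52, e25⟩, ⟨e04, e51, e15⟩, e05,
    e44, ⟨e12, e43, e34⟩, ⟨e13, e42, e24⟩, e14, e33, e23⟩ := five_symm X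
  unfold twiceC1C chi
  simp only [Finset.sum_range_succ, Finset.sum_range_zero, e00, e55, e01, e54, e45, e02, e53, e35,
    e03, e52, e25, e04, e51, e15, e05, e44, e12, e43, e34, e13, e42, e24, e14, e33, e23]
  push_cast
  ring

theorem result {A B : Type*} [Ring A] [Algebra ℂ A] [FiniteDimensional ℂ A]
    [Ring B] [Algebra ℂ B] [FiniteDimensional ℂ B]
    (X : HodgeRing 5 A) (Y : HodgeRing 5 B) (phi : A ≃ₗ[ℂ] B) (hphi : IsMukaiIsometry X Y phi) :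
    (∀ p q, X.h p q = Y.h p q) ↔
      (X.h 1 0 = Y.h 1 0 ∧ chi X 0 = chi Y 0 ∧ twiceC1C X = twiceC1C Y) := by
  constructor
  · intro h
    refine ⟨h 1 0, ?_, ?_⟩
    · unfold chi
      simp only [h]
    · unfold twiceC1C chi
      simp only [h]
  · rintro ⟨h10, hchi, hc⟩
    have odd := fivefold_odd hphi h10
    have o30 := odd 3 0 (by decide)
    have o50 := odd 5 0 (by decide)
    have o21 := odd 2 1 (by decide)
    have o41 := odd 4 1 (by decide)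
    have o32 := odd 3 2 (by decide)
    have c4 := column_sum hphi (a := 4) (b := 0) (m := 1) rfl (Or.inr rfl)
    have c2 := column_sum hphi (a := 2) (b := 0) (m := 3) rfl (Or.inr rfl)
    have c0 := column_sum hphi (a := 0) (b := 0) (m := 5) rfl (Or.inr rfl)
    simp only [Finset.sum_range_succ, Finset.sum_range_zero] at c4 c2 c0
    norm_num at c4 c2 c0
    obtain ⟨⟨x00, x55⟩, ⟨-, -, -⟩, ⟨-, x53, -⟩, ⟨-, -, -⟩, ⟨-, x51, -⟩, -,
      x44, ⟨-, -, -⟩, ⟨-, x42, -⟩, -, x33, -⟩ := five_symm X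
    obtain ⟨⟨y00, y55⟩, ⟨-, -, -⟩, ⟨-, y53, -⟩, ⟨-, -, -⟩, ⟨-, y51, -⟩, -,
      y44, ⟨-, -, -⟩, ⟨-, y42, -⟩, -, y33, -⟩ := five_symm Y
    rw [chi0, chi0] at hchi
    rw [twice_eq, twice_eq] at hc
    have h40 : X.h 4 0 = Y.h 4 0 := by omega
    have h20 : X.h 2 0 = Y.h 2 0 := by omega
    have h31 : X.h 3 1 = Y.h 3 1 := by omega
    have h11 : X.h 1 1 = Y.h 1 1 := by omega
    have h22 : X.h 2 2 = Y.h 2 2 := by omega
    intro p q
    refine reduce X Y (fun _ _ => True) (fun _ _ _ => trivial) (fun _ _ _ _ _ => trivial)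
      (fun p q hqp hpq _ => ?_) p q trivial
    have hp : p ≤ 5 := by omega
    have hq : q ≤ 2 := by omega
    rcases Nat.even_or_odd (p + q) with hev | hodd
    · rw [Nat.even_iff] at hev
      interval_cases q <;> interval_cases p <;> omega
    · exact odd p q hodd

end Pool.Agent.Helper94.Hodge.FivefoldCriterion
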